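import Mathlib

set_option autoImplicit false

namespace Pool.Agent.MP_086a35_co

/-- `p = (i, j)` is a diagonal of the convex `n`-gon with vertices `0, …, n - 1` (written with
`i < j`): the two vertices are not neighbours on the boundary. -/
def IsDiagonal (n : ℕ) (p : Fin n × Fin n) : Prop :=
  p.1.val + 2 ≤ p.2.val ∧ ¬ (p.1.val = 0 ∧ p.2.val + 1 = n)

/-- two diagonals cross in the interior of the polygon -/
def Crosses {n : ℕ} (p q : Fin n × Fin n) : Prop :=
  (p.1 < q.1 ∧ q.1 < p.2 ∧ p.2 < q.2) ∨ (q.1 < p.1 ∧ p.1 < q.2 ∧ q.2 < p.2)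

/-- a dissection of the convex `n`-gon: a set of pairwise non-crossing diagonals -/
structure Dissection (n : ℕ) where
  diags : Finset (Fin n × Fin n)
  isDiag : ∀ p ∈ diags, IsDiagonal n p
  noncross : ∀ p ∈ diags, ∀ q ∈ diags, ¬ Crosses p q

/-- faces of the associahedron `A_n`: the empty face `none` and the dissections -/
abbrev Face (n : ℕ) : Type := Option (Dissection n)

/-- dimension of a face -/
def faceDim (n : ℕ) : Face n → ℤ
  | none => -1
  | some D => (n : ℤ) - 3 - (D.diags.card : ℤ)

/-- `Covered n a b`: the face `a` is covered by the face `b` in the face lattice -/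
def Covered (n : ℕ) : Face n → Face n → Prop
  | none, some T => T.diags.card + 3 = n
  | some D, some E => ∃ p, p ∉ E.diags ∧ D.diags = insert p E.diags
  | _, none => False

/-- the cover graph `G(L(A_n))` -/
def coverGraph (n : ℕ) : SimpleGraph (Face n) := SimpleGraph.fromRel (Covered n)

section Strip

variable {V : Type} (dim : V → ℤ) (d : ℤ) (R : SimpleGraph V) (pos : V → ℝ) (wind : V → V → ℤ)

/-- The cylinder is `(ℝ / ℤ) × [-1, d]`; a vertex `v` is drawn at `(pos v, dim v)`. In the
universal cover its copies `(v, m)`, `m : ℤ`, have abscissa `pos v + m`. -/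
def liftX (u : V × ℤ) : ℝ := pos u.1 + u.2

/-- `LiftUp u v`: the copies `u` (below) and `v` (one level above) are joined by a straight copy
of an edge of `R`. An edge `a b` between two of the levels `0, …, d - 1` joins `(a, m)` to
`(b, m + wind a b)`. The levels `-1` and `d` close the cylinder: all copies of the vertex drawn
there are the same point. -/
def LiftUp (u v : V × ℤ) : Prop :=
  R.Adj u.1 v.1 ∧ dim v.1 = dim u.1 + 1 ∧ (0 ≤ dim u.1 → dim v.1 < d → v.2 = u.2 + wind u.1 v.1)

/-- `R`, drawn with abscissae `pos` and windings `wind`, is a rhombic strip of `G`. -/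
structure IsRhombicStrip (G : SimpleGraph V) : Prop where
  /-- `R` is a spanning subgraph of `G` -/
  sub : R ≤ G
  /-- different vertices of one level are drawn at different points of the cylinder -/
  distinct : ∀ u v : V × ℤ, dim u.1 = dim v.1 → liftX pos u = liftX pos v → u = v
  /-- edges between the same two consecutive levels do not cross -/
  noncrossing : ∀ u v u' v' : V × ℤ, LiftUp dim d R wind u v → LiftUp dim d R wind u' v' →
    dim u.1 = dim u'.1 → 0 ≤ dim u.1 → dim v.1 < d →
    liftX pos u < liftX pos u' → liftX pos v ≤ liftX pos v'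
  /-- two points that are consecutive on a level `0, …, d - 1` are two different vertices and
  are the left and right corners of a rhombus: they have a common neighbour above and a common
  neighbour below -/
  rhombus : ∀ u u' : V × ℤ, dim u.1 = dim u'.1 → 0 ≤ dim u.1 → dim u.1 < d →
    liftX pos u < liftX pos u' →
    (∀ w : V × ℤ, dim w.1 = dim u.1 → ¬ (liftX pos u < liftX pos w ∧ liftX pos w < liftX pos u')) →
    u.1 ≠ u'.1 ∧ (∃ t, LiftUp dim d R wind u t ∧ LiftUp dim d R wind u' t) ∧
      (∃ b, LiftUp dim d R wind b u ∧ LiftUp dim d R wind b u')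

end Strip

end Pool.Agent.MP_086a35_co
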